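import Pool.Agent.Q289.OP.Stm

/-!
# Project OP (helper289), job MONO
-/

set_option autoImplicit false

namespace Q38.OP

open Q289.OP

section

variable {ι : Type} {N : ℕ}

theorem blk_inf {a : Fin N} {c d x y : ι → Fin (N + 1)} (hcd : c ≤ d) (hx : blk a c x)
    (hy : blk a d y) : blk a c (x ⊓ y) := by
  intro i
  have h1 := hx i
  have h2 := hy i
  have h3 : (c i : ℕ) ≤ d i := hcd i
  have h4 : ((x ⊓ y) i : ℕ) = min (x i : ℕ) (y i : ℕ) := by
    simp only [Pi.inf_apply]
    rcases le_total (x i) (y i) with h | h
    · rw [inf_eq_left.2 h, min_eq_left (by exact_mod_cast h)]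
    · rw [inf_eq_right.2 h, min_eq_right (by exact_mod_cast h)]
  simp only [Fin.ext_iff, Fin.val_castSucc, Fin.val_succ] at h1 h2 ⊢
  omega

theorem blk_sup {a : Fin N} {c d x y : ι → Fin (N + 1)} (hcd : c ≤ d) (hx : blk a c x)
    (hy : blk a d y) : blk a d (x ⊔ y) := by
  intro i
  have h1 := hx i
  have h2 := hy i
  have h3 : (c i : ℕ) ≤ d i := hcd i
  have h4 : ((x ⊔ y) i : ℕ) = max (x i : ℕ) (y i : ℕ) := by
    simp only [Pi.sup_apply]
    rcases le_total (x i) (y i) with h | h
    · rw [sup_eq_right.2 h, max_eq_right (by exact_mod_cast h)]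
    · rw [sup_eq_left.2 h, max_eq_left (by exact_mod_cast h)]
  simp only [Fin.ext_iff, Fin.val_castSucc, Fin.val_succ] at h1 h2 ⊢
  omega

end

open Classical in
theorem mono : S_MONO := by
  intro ι _ _ _ N w hw a F hF c d hc hd hcd
  -- the positivity of the block sums
  have hpos : ∀ e : ι → Fin (N + 1), Monotone e → 0 < ∑ x, if blk a e x then w x else 0 := by
    intro e he
    refine lt_of_lt_of_le ((hw.pos e).2 he) ?_
    have h1 := Finset.single_le_sum (f := fun x => if blk a e x then w x else 0)
      (fun x _ => by split_ifs; exacts [hw.nonneg x, le_rfl]) (Finset.mem_univ e)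
    have h2 : blk a e e := fun i => Or.inl rfl
    simpa [h2] using h1
  obtain ⟨K, hK⟩ : ∃ K : ℝ, ∀ x, 0 ≤ F x + K := by
    refine ⟨∑ x, |F x|, fun x => ?_⟩
    have h1 := Finset.single_le_sum (f := fun x => |F x|) (fun x _ => abs_nonneg _) (Finset.mem_univ x)
    have h2 := neg_abs_le (F x)
    linarith
  have hshift : ∀ e : ι → Fin (N + 1), Monotone e →
      cE w a F e = (∑ x, if blk a e x then w x * (F x + K) else 0) /
        (∑ x, if blk a e x then w x else 0) - K := by
    intro e he
    have h1 := hpos e he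
    unfold cE
    rw [eq_sub_iff_add_eq, div_add' _ _ _ h1.ne']
    congr 1
    rw [Finset.mul_sum, ← Finset.sum_add_distrib]
    refine Finset.sum_congr rfl fun x _ => ?_
    split_ifs <;> ring
  rw [hshift c hc, hshift d hd]
  refine sub_le_sub_right ?_ K
  rw [div_le_div_iff₀ (hpos c hc) (hpos d hd)]
  have h4 := four_functions_theorem_univ
    (f₁ := fun x => if blk a c x then w x * (F x + K) else 0)
    (f₂ := fun x => if blk a d x then w x else 0)
    (f₃ := fun x => if blk a c x then w x else 0)
    (f₄ := fun x => if blk a d x then w x * (F x + K) else 0)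
    (by intro x; simp only [Pi.zero_apply]; split_ifs; exacts [mul_nonneg (hw.nonneg x) (hK x), le_rfl])
    (by intro x; simp only [Pi.zero_apply]; split_ifs; exacts [hw.nonneg x, le_rfl])
    (by intro x; simp only [Pi.zero_apply]; split_ifs; exacts [hw.nonneg x, le_rfl])
    (by intro x; simp only [Pi.zero_apply]; split_ifs; exacts [mul_nonneg (hw.nonneg x) (hK x), le_rfl])
    (by
      intro x y
      have hr : 0 ≤ (if blk a c (x ⊓ y) then w (x ⊓ y) else 0) *
          (if blk a d (x ⊔ y) then w (x ⊔ y) * (F (x ⊔ y) + K) else 0) := by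
        refine mul_nonneg ?_ ?_
        · split_ifs; exacts [hw.nonneg _, le_rfl]
        · split_ifs; exacts [mul_nonneg (hw.nonneg _) (hK _), le_rfl]
      by_cases hx : blk a c x
      · by_cases hy : blk a d y
        · simp only [if_pos hx, if_pos hy, if_pos (blk_inf hcd hx hy), if_pos (blk_sup hcd hx hy)] at hr ⊢
          rcases (hw.nonneg x).eq_or_lt with h0 | h0
          · rw [← h0]
            simpa using hr
          rcases (hw.nonneg y).eq_or_lt with h1 | h1
          · rw [← h1]
            simpa using hr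
          have mx := (hw.pos x).1 h0
          have my := (hw.pos y).1 h1
          have hF1 : F x ≤ F (x ⊔ y) := hF x (x ⊔ y) mx (mx.sup my) le_sup_left
          calc w x * (F x + K) * w y = (w x * w y) * (F x + K) := by ring
            _ ≤ (w (x ⊓ y) * w (x ⊔ y)) * (F (x ⊔ y) + K) :=
                mul_le_mul (hw.lat x y) (by linarith) (hK x)
                  (mul_nonneg (hw.nonneg _) (hw.nonneg _))
            _ = w (x ⊓ y) * (w (x ⊔ y) * (F (x ⊔ y) + K)) := by ring
        · simp only [if_neg hy, mul_zero]
          exact hr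
      · simp only [if_neg hx, zero_mul]
        exact hr)
  calc _ ≤ _ := h4
    _ = _ := mul_comm _ _

end Q38.OP
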